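import Pool.Agent.W761.CB.Stm0

/-!
# CB-LAM: the measure on configurations
-/

set_option autoImplicit false

open MeasureTheory
open scoped ENNReal

namespace Pool.Agent.W366.CB

open Pool.Agent.W761.CB

variable {X : Type} [MeasurableSpace X]

lemma meas_mk (N : ℕ) : Measurable (@Sigma.mk ℕ (fun N => Fin N → X) N) :=
  measurable_iff_le_map.2 (iInf_le (fun a : ℕ =>
    (inferInstance : MeasurableSpace (Fin a → X)).map (@Sigma.mk ℕ (fun N => Fin N → X) a)) N)

lemma meas_of {β : Type*} [MeasurableSpace β] {f : Cf X → β}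
    (h : ∀ N, Measurable fun x : Fin N → X => f ⟨N, x⟩) : Measurable f := by
  intro s hs
  refine MeasurableSpace.measurableSet_iInf.2 fun N => ?_
  exact h N hs

omit [MeasurableSpace X] in
lemma card_ms (γ : Cf X) : Multiset.card (ms γ) = γ.1 := by
  unfold ms
  rw [Multiset.coe_card, List.length_ofFn]

omit [MeasurableSpace X] in
lemma ms_prod (g : X → ℂ) (N : ℕ) (x : Fin N → X) :
    ((ms ⟨N, x⟩).map g).prod = ∏ i, g (x i) := by
  unfold ms
  rw [Multiset.map_coe, Multiset.prod_coe, List.map_ofFn, List.prod_ofFn]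
  rfl

lemma meas_card {β : Type*} [MeasurableSpace β] (f : ℕ → β) :
    Measurable fun γ : Cf X => f (Multiset.card (ms γ)) := by
  refine meas_of fun N => ?_
  have e : (fun x : Fin N → X => f (Multiset.card (ms (⟨N, x⟩ : Cf X)))) = fun _ => f N := by
    funext x
    rw [card_ms]
  rw [e]
  exact measurable_const

variable (ν : Measure X) [IsFiniteMeasure ν]

omit [IsFiniteMeasure ν] in
/-- part 1 -/
lemma lint (g : Cf X → ℝ≥0∞) (hg : Measurable g) : ∫⁻ γ, g γ ∂(lam ν) =
    ∑' N : ℕ, (N.factorial : ℝ≥0∞)⁻¹ * ∫⁻ x : Fin N → X, g ⟨N, x⟩ ∂(Measure.pi fun _ => ν) := by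
  unfold lam
  rw [lintegral_sum_measure]
  refine tsum_congr fun N => ?_
  rw [lintegral_smul_measure, lintegral_map hg (meas_mk N), smul_eq_mul]

/-- part 3 -/
lemma lexp (C c : ℝ) (hC : 0 ≤ C) (hc : 0 ≤ c) :
    ∫⁻ γ, ENNReal.ofReal (C * c ^ Multiset.card (ms γ)) ∂(lam ν) =
      ENNReal.ofReal (C * Real.exp (c * (ν Set.univ).toReal)) := by
  rw [lint ν _ (meas_card fun k => ENNReal.ofReal (C * c ^ k))]
  obtain ⟨a, ha⟩ : ∃ a, a = (ν Set.univ).toReal := ⟨_, rfl⟩
  have ha0 : 0 ≤ a := by rw [ha]; exact ENNReal.toReal_nonneg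
  have hν : ν Set.univ = ENNReal.ofReal a := by
    rw [ha, ENNReal.ofReal_toReal (measure_ne_top ν _)]
  have hterm : ∀ N : ℕ, (N.factorial : ℝ≥0∞)⁻¹ * ∫⁻ x : Fin N → X,
      ENNReal.ofReal (C * c ^ Multiset.card (ms (⟨N, x⟩ : Cf X))) ∂(Measure.pi fun _ => ν) =
      ENNReal.ofReal (C * ((c * a) ^ N / N.factorial)) := by
    intro N
    have e1 : ∀ x : Fin N → X, ENNReal.ofReal (C * c ^ Multiset.card (ms (⟨N, x⟩ : Cf X))) =
        ENNReal.ofReal (C * c ^ N) := fun x => by rw [card_ms]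
    simp only [e1]
    rw [lintegral_const, Measure.pi_univ, Finset.prod_const, Finset.card_univ, Fintype.card_fin,
      hν, ← ENNReal.ofReal_pow ha0, ← ENNReal.ofReal_mul (by positivity)]
    have e2 : (N.factorial : ℝ≥0∞)⁻¹ = ENNReal.ofReal ((N.factorial : ℝ)⁻¹) := by
      rw [ENNReal.ofReal_inv_of_pos (by positivity), ENNReal.ofReal_natCast]
    rw [e2, ← ENNReal.ofReal_mul (by positivity)]
    congr 1
    rw [mul_pow]
    ring
  simp only [hterm]
  have hs : Summable fun N : ℕ => C * ((c * a) ^ N / N.factorial) :=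
    (Real.summable_pow_div_factorial (c * a)).mul_left C
  rw [← ENNReal.ofReal_tsum_of_nonneg (fun N => by positivity) hs, tsum_mul_left, ← ha,
    Real.exp_eq_exp_ℝ, NormedSpace.exp_eq_tsum_div]

lemma int_card (C c : ℝ) (hC : 0 ≤ C) (hc : 0 ≤ c) :
    Integrable (fun γ : Cf X => C * c ^ Multiset.card (ms γ)) (lam ν) := by
  refine ⟨(meas_card fun k => C * c ^ k).aestronglyMeasurable, ?_⟩
  rw [hasFiniteIntegral_iff_ofReal (Filter.Eventually.of_forall fun γ => by positivity), lexp ν C c hC hc]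
  exact ENNReal.ofReal_lt_top

omit [MeasurableSpace X] in
lemma norm_prod (g : X → ℂ) (C : ℝ) (hC : 0 ≤ C) (hg : ∀ x, ‖g x‖ ≤ C) (S : Multiset X) :
    ‖(S.map g).prod‖ ≤ C ^ Multiset.card S := by
  induction S using Multiset.induction_on with
  | empty => simp
  | cons x S ih =>
    rw [Multiset.map_cons, Multiset.prod_cons, Multiset.card_cons, norm_mul, pow_succ, mul_comm]
    exact mul_le_mul ih (hg x) (norm_nonneg _) (by positivity)

theorem proof_lam : S_MS → S_LAM := by
  intro hMS X _ ν _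
  have hms : ∀ g : X → ℂ, Measurable g → Measurable fun γ : Cf X => ((ms γ).map g).prod := by
    intro g hg
    obtain ⟨-, -, h3, -⟩ := hMS X
    have h := h3 Unit (fun _ => g) (hg.comp measurable_snd)
    exact h.comp (measurable_prodMk_left (x := ()))
  refine ⟨fun g hg => lint ν g hg, ?_, fun C c hC hc => lexp ν C c hC hc, ?_, ?_, ?_⟩
  · refine ⟨?_⟩
    have h := lexp ν 1 1 zero_le_one zero_le_one
    simp only [one_pow, mul_one, ENNReal.ofReal_one, one_mul] at h
    rw [lintegral_one] at h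
    rw [h]
    exact ENNReal.ofReal_lt_top
  · intro F G hF hG
    obtain ⟨C, c, hC, hc, hFb⟩ := hF.bdd
    obtain ⟨C', c', hC', hc', hGb⟩ := hG.bdd
    refine (int_card ν (C * C') (c * c') (by positivity) (by positivity)).mono'
      (hF.meas.mul hG.meas).aestronglyMeasurable (Filter.Eventually.of_forall fun γ => ?_)
    rw [norm_mul]
    refine (mul_le_mul (hFb _) (hGb _) (norm_nonneg _) (by positivity)).trans (le_of_eq ?_)
    rw [mul_pow]
    ring
  · intro F hF
    obtain ⟨C, c, hC, hc, hFb⟩ := hF.bdd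
    unfold nE
    have h := lexp ν (C ^ 2) (c ^ 2) (by positivity) (by positivity)
    refine lt_of_le_of_lt (lintegral_mono fun γ => ?_) (lt_of_eq_of_lt h ENNReal.ofReal_lt_top)
    rw [← ofReal_norm, ← ENNReal.ofReal_pow (norm_nonneg _)]
    apply ENNReal.ofReal_le_ofReal
    refine (pow_le_pow_left₀ (norm_nonneg _) (hFb _) 2).trans (le_of_eq ?_)
    rw [mul_pow, ← pow_mul, ← pow_mul, mul_comm 2]
  · intro g hg hgb
    obtain ⟨C, hC, hgC⟩ : ∃ C : ℝ, 0 ≤ C ∧ ∀ x, ‖g x‖ ≤ C := by
      obtain ⟨C, h⟩ := hgb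
      exact ⟨max C 0, le_max_right _ _, fun x => (h x).trans (le_max_left _ _)⟩
    have hint : Integrable (fun γ => ((ms γ).map g).prod) (lam ν) := by
      refine (int_card ν 1 C zero_le_one hC).mono' (hms g hg).aestronglyMeasurable
        (Filter.Eventually.of_forall fun γ => ?_)
      rw [one_mul]
      exact norm_prod g C hC hgC _
    refine ⟨hint, ?_⟩
    have h1 : ∫ γ, ((ms γ).map g).prod ∂(lam ν) =
        ∑' N : ℕ, (N.factorial : ℂ)⁻¹ * (∫ x, g x ∂ν) ^ N := by
      unfold lam at hint ⊢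
      rw [integral_sum_measure hint]
      refine tsum_congr fun N => ?_
      rw [integral_smul_measure, integral_map (meas_mk N).aemeasurable
        (hms g hg).aestronglyMeasurable]
      have e1 : ∀ x : Fin N → X, ((ms (⟨N, x⟩ : Cf X)).map g).prod = ∏ i, g (x i) :=
        fun x => ms_prod g N x
      simp only [e1]
      rw [integral_fin_nat_prod_eq_prod (fun _ => g), Finset.prod_const, Finset.card_univ,
        Fintype.card_fin, ENNReal.toReal_inv, ENNReal.toReal_natCast, Complex.real_smul]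
      push_cast
      rfl
    rw [h1, Complex.exp_eq_exp_ℂ, NormedSpace.exp_eq_tsum_div]
    refine tsum_congr fun N => ?_
    rw [div_eq_mul_inv, mul_comm]

end Pool.Agent.W366.CB
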