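import Pool.Agent.W662.CB.Stmts

/-!
# CB-B2: slices of operators affiliated with the box
-/

set_option autoImplicit false

open scoped InnerProductSpace

namespace Pool.Agent.W366.CB.B2

open Pool.Agent.W662.CB

lemma adj_kappa {H K : Type} [NormedAddCommGroup H] [InnerProductSpace ℂ H] [CompleteSpace H]
    [NormedAddCommGroup K] [InnerProductSpace ℂ K] [CompleteSpace K]
    (κ : (H →L[ℂ] H) →⋆ₐ[ℂ] (K →L[ℂ] K)) (J : H →L[ℂ] K)
    (hJ : ∀ (y : H →L[ℂ] H) (v : H), κ y (J v) = J (y v)) (y : H →L[ℂ] H) (v : K) :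
    y (ContinuousLinearMap.adjoint J v) = ContinuousLinearMap.adjoint J (κ y v) := by
  refine ext_inner_left ℂ fun w => ?_
  rw [ContinuousLinearMap.adjoint_inner_right]
  have e1 : ⟪w, y (ContinuousLinearMap.adjoint J v)⟫_ℂ =
      ⟪(star y) w, ContinuousLinearMap.adjoint J v⟫_ℂ := by
    rw [ContinuousLinearMap.star_eq_adjoint, ContinuousLinearMap.adjoint_inner_left]
  have e2 : ⟪(star (κ y)) (J w), v⟫_ℂ = ⟪J w, κ y v⟫_ℂ := by
    rw [ContinuousLinearMap.star_eq_adjoint, ContinuousLinearMap.adjoint_inner_left]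
  rw [e1, ContinuousLinearMap.adjoint_inner_right, ← hJ, map_star, e2]

theorem b2 : S_B2 := by
  intro H K _ _ _ _ _ _ M U κ V J E T δ hB X hX
  obtain ⟨h1, h2⟩ := hX
  refine ⟨?_, ⟨fun t => ?_, fun y hy => ?_⟩, fun z w => ⟨fun t => ?_, fun y hy => ?_⟩⟩
  · rw [← VonNeumannAlgebra.commutant_commutant M, VonNeumannAlgebra.mem_commutant_iff]
    intro y hy
    ext v
    show y (ContinuousLinearMap.adjoint J (X (J v))) = ContinuousLinearMap.adjoint J (X (J (y v)))
    rw [adj_kappa κ J hB.κ_J, ← hB.κ_J]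
    have h3 := congrArg (fun A : K →L[ℂ] K => A (J v)) (h2 y hy)
    change X (κ y (J v)) = κ y (X (J v)) at h3
    rw [h3]
  · have h3 := congrArg star (h1 (-t))
    rw [star_mul, star_mul, hB.V_star, neg_neg] at h3
    exact h3.symm
  · have h3 := congrArg star (h2 (star y) (star_mem hy))
    rw [star_mul, star_mul, map_star, star_star] at h3
    exact h3.symm
  · rw [mul_assoc, ← hB.V_E, ← mul_assoc, mul_assoc (E z), h1, ← mul_assoc, ← hB.V_E]
    simp only [mul_assoc]
  · rw [mul_assoc, ← hB.κ_E, ← mul_assoc, mul_assoc (E z), h2 y hy, ← mul_assoc, ← hB.κ_E]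
    simp only [mul_assoc]

end Pool.Agent.W366.CB.B2
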