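import Pool.Agent.W761.CB.Stms

/-!
# CB-IBP: integral of a partial derivative
-/

set_option autoImplicit false

open MeasureTheory
open scoped ENNReal

namespace Pool.Agent.W366.CB

open Pool.Agent.W761.CB

/-- the uniform distribution -/
noncomputable def uni : Measure ℝ := volume.restrict (Set.Ioc (-(1 / 2)) (1 / 2))

instance : IsProbabilityMeasure uni := by
  refine ⟨?_⟩
  unfold uni
  rw [Measure.restrict_apply_univ, Real.volume_Ioc]
  norm_num

lemma restrict_bx (d : Type) [Fintype d] :
    (volume : Measure (d → ℝ)).restrict (bx d) = Measure.pi fun _ => uni := by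
  unfold bx uni
  rw [volume_pi, Measure.restrict_pi_pi]

/-- resampling one coordinate -/
lemma mp_update (d : Type) [Fintype d] [DecidableEq d] (j : d) (ρ : Measure ℝ)
    [IsProbabilityMeasure ρ] :
    MeasurePreserving (fun p : (d → ℝ) × ℝ => Function.update p.1 j p.2)
      ((Measure.pi fun _ => ρ).prod ρ) (Measure.pi fun _ => ρ) := by
  have hm : Measurable (fun p : (d → ℝ) × ℝ => Function.update p.1 j p.2) := by
    rw [measurable_pi_iff]
    intro i
    by_cases h : i = j
    · subst h
      simp only [Function.update_self]
      exact measurable_snd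
    · simp only [Function.update_of_ne h]
      exact (measurable_pi_apply i).comp measurable_fst
  refine ⟨hm, (Measure.pi_eq fun A hA => ?_).symm⟩
  rw [Measure.map_apply hm (MeasurableSet.univ_pi hA)]
  have e : (fun p : (d → ℝ) × ℝ => Function.update p.1 j p.2) ⁻¹' (Set.univ.pi A) =
      (Set.univ.pi (Function.update A j Set.univ)) ×ˢ (A j) := by
    ext p
    simp only [Set.mem_preimage, Set.mem_pi, Set.mem_univ, true_implies, Set.mem_prod]
    constructor
    · intro h
      refine ⟨fun i => ?_, ?_⟩
      · by_cases hi : i = j
        · subst hi
          rw [Function.update_self]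
          exact Set.mem_univ _
        · rw [Function.update_of_ne hi]
          have := h i
          rwa [Function.update_of_ne hi] at this
      · have := h j
        rwa [Function.update_self] at this
    · rintro ⟨h1, h2⟩ i
      by_cases hi : i = j
      · subst hi
        rw [Function.update_self]
        exact h2
      · rw [Function.update_of_ne hi]
        have := h1 i
        rwa [Function.update_of_ne hi] at this
  rw [e, Measure.prod_prod, Measure.pi_pi]
  have e2 : ∀ i, ρ (Function.update A j Set.univ i) = Function.update (fun i => ρ (A i)) j 1 i := by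
    intro i
    by_cases hi : i = j
    · subst hi
      rw [Function.update_self, Function.update_self, measure_univ]
    · rw [Function.update_of_ne hi, Function.update_of_ne hi]
  rw [Finset.prod_congr rfl fun i _ => e2 i, Finset.prod_update_of_mem (Finset.mem_univ j), one_mul,
    mul_comm, ← Finset.mul_prod_erase Finset.univ _ (Finset.mem_univ j)]
  congr 1
  rw [Finset.sdiff_singleton_eq_erase]

theorem proof_ibp : S_IBP := by
  intro d _ _ j H G hH hG hb hder h0
  obtain ⟨C, hC⟩ := hb
  have hbx : ∀ s ∈ bx d, ∀ i, |s i| ≤ 1 / 2 := by
    intro s hs i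
    have := hs i (Set.mem_univ i)
    rw [abs_le]
    exact ⟨this.1.le, this.2⟩
  have hmeas : MeasurableSet (bx d) := MeasurableSet.univ_pi fun _ => measurableSet_Ioc
  have hmp := mp_update d j uni
  rw [restrict_bx]
  have hae : ∀ᵐ s ∂(Measure.pi fun _ : d => uni), s ∈ bx d := by
    rw [← restrict_bx]
    exact ae_restrict_mem hmeas
  have hint : Integrable G (Measure.pi fun _ : d => uni) := by
    refine (integrable_const C).mono' hG.aestronglyMeasurable ?_
    filter_upwards [hae] with s hs
    exact (hC s (hbx s hs)).2
  have hint2 : Integrable (fun p : (d → ℝ) × ℝ => G (Function.update p.1 j p.2))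
      ((Measure.pi fun _ => uni).prod uni) :=
    (hmp.integrable_comp hG.aestronglyMeasurable).2 hint
  have e1 : ∫ s, G s ∂(Measure.pi fun _ : d => uni) =
      ∫ p, G (Function.update p.1 j p.2) ∂((Measure.pi fun _ => uni).prod uni) := by
    conv_lhs => rw [← hmp.map_eq]
    rw [integral_map hmp.measurable.aemeasurable hG.aestronglyMeasurable]
  rw [e1, integral_prod _ hint2]
  rw [← integral_zero (d → ℝ) ℂ (μ := Measure.pi fun _ : d => uni)]
  refine integral_congr_ae ?_
  filter_upwards [hae] with s hs
  have hs' := hbx s hs
  have hup : ∀ t : ℝ, |t| ≤ 1 / 2 → ∀ i, |Function.update s j t i| ≤ 1 / 2 := by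
    intro t ht i
    by_cases hi : i = j
    · subst hi
      rw [Function.update_self]
      exact ht
    · rw [Function.update_of_ne hi]
      exact hs' i
  have hmu : Measurable fun t : ℝ => G (Function.update s j t) :=
    hG.comp (measurable_update s)
  have hii : IntervalIntegrable (fun t : ℝ => G (Function.update s j t)) volume (-(1 / 2))
      (1 / 2) := by
    refine (intervalIntegrable_const (c := C)).mono_fun' hmu.aestronglyMeasurable ?_
    rw [Set.uIoc_of_le (by norm_num)]
    refine (ae_restrict_iff' measurableSet_Ioc).2 (ae_of_all _ fun t ht => ?_)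
    exact (hC _ (hup t (abs_le.2 ⟨ht.1.le, ht.2⟩))).2
  have hftc := intervalIntegral.integral_eq_sub_of_hasDerivAt
    (f := fun t : ℝ => H (Function.update s j t)) (f' := fun t : ℝ => G (Function.update s j t))
    (a := -(1 / 2)) (b := 1 / 2) (fun t _ => by
      have h := hder (Function.update s j t)
      simp only [Function.update_idem, Function.update_self] at h
      exact h) hii
  rw [h0 (Function.update s j (1 / 2)) (Or.inl (by rw [Function.update_self])),
    h0 (Function.update s j (-(1 / 2))) (Or.inr (by rw [Function.update_self])), sub_zero,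
    intervalIntegral.integral_of_le (by norm_num)] at hftc
  exact hftc

end Pool.Agent.W366.CB
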